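import Pool.Agent.Lib_h47np.Final

/-!
# The 1/6 theorem for all bounded domains with smooth boundary
-/

set_option autoImplicit false

open MeasureTheory Measure Metric Set Filter

namespace Pool.Agent.Results.MP_7c725c_an.SpectralMaximum

open Pool.Agent.NPD

theorem aux {g : E3 → ℝ} (hg : Pool.Agent.NP.Dom g) (hc : IsPreconnected (Pool.Agent.NP.Om g))
    (σ : Measure E3) (hσ : σ = Pool.Agent.NP.surf g) (ν : E3 → E3)
    (hν : ∀ p, g p = 0 → ν p = Pool.Agent.NP.nrm g p) :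
    ∃ K : Lp ℂ 2 σ →L[ℂ] Lp ℂ 2 σ,
      (∀ φ : Lp ℂ 2 σ, ∀ᵐ x ∂σ,
        Integrable (fun y => ((inner ℝ (y - x) (ν y) / ‖x - y‖ ^ 3 : ℝ) : ℂ) * φ y) σ ∧
        K φ x = (1 / (4 * Real.pi) : ℂ) *
          ∫ y, ((inner ℝ (y - x) (ν y) / ‖x - y‖ ^ 3 : ℝ) : ℂ) * φ y ∂σ) ∧
      IsCompactOperator K ∧ (∀ z ∈ spectrum ℂ K, z.im = 0) ∧
      ∃ M : ℝ, IsGreatest {t : ℝ | (t : ℂ) ∈ spectrum ℂ K ∧ t ≠ 1 / 2} M ∧ 1 / 6 ≤ M ∧
        (M = 1 / 6 ↔ ∃ (c : E3) (r : ℝ), 0 < r ∧ {x | g x = 0} = sphere c r) := by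
  subst hσ
  obtain ⟨K, h1, _, h2, h3, h4⟩ := exists_operator hg hc
  refine ⟨K, fun φ => ?_, h2, h3, h4⟩
  have hpi : (4 * Real.pi : ℝ) ≠ 0 := by positivity
  have key : ∀ x : E3, (fun y => ((Pool.Agent.NP.kNP g y x : ℝ) : ℂ) * φ y)
      =ᵐ[Pool.Agent.NP.surf g] fun y => (1 / (4 * Real.pi) : ℂ) *
        (((inner ℝ (y - x) (ν y) / ‖x - y‖ ^ 3 : ℝ) : ℂ) * φ y) := by
    intro x
    filter_upwards [hg.ae_mem] with y hy
    rw [hν y hy]
    unfold Pool.Agent.NP.kNP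
    rw [norm_sub_rev x y, ← mul_assoc]
    congr 1
    push_cast
    rw [div_mul_div_comm, one_mul]
  filter_upwards [h1 φ] with x hx
  have hI := hx.1.congr (key x)
  have h5 : Integrable (fun y => ((inner ℝ (y - x) (ν y) / ‖x - y‖ ^ 3 : ℝ) : ℂ) * φ y)
      (Pool.Agent.NP.surf g) := by
    have h6 := hI.const_mul (4 * Real.pi : ℂ)
    refine h6.congr (Eventually.of_forall fun y => ?_)
    simp only
    rw [← mul_assoc, mul_one_div_cancel (by exact_mod_cast hpi), one_mul]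
  refine ⟨h5, ?_⟩
  rw [hx.2, integral_congr_ae (key x), integral_const_mul]

/-- Let `Ω` be a bounded domain of `ℝ^3` with `C^∞` boundary (of any topological type). There is
exactly one Neumann-Poincare operator `K` on the complex space `L²(∂Ω)`; it is compact, its spectrum
is real, the set of the points of the spectrum other than `1/2` has a greatest element `M`,
`1/6 ≤ M`, and `M = 1/6` if and only if the boundary is a round sphere. -/
theorem result (Ω : Set E3) (hΩ : IsSmoothDomain Ω) (ν : E3 → E3)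
    (hν : ∀ p ∈ frontier Ω, IsOuterNormal Ω p (ν p)) :
    ∃ (K : Op Ω) (M : ℝ), (∀ K' : Op Ω, IsNeumannPoincare Ω ν K' ↔ K' = K) ∧
      IsSpectralMax Ω K M ∧ 1 / 6 ≤ M ∧
      (M = 1 / 6 ↔ ∃ (c : E3) (r : ℝ), 0 < r ∧ frontier Ω = sphere c r) := by
  obtain ⟨g, hdef, hg⟩ := hΩ.exists_global
  have hS : {x | g x = 0} = frontier Ω := by
    ext x
    exact (hdef.boundary x (mem_univ x)).symm
  have hO : Pool.Agent.NP.Om g = Ω := by
    ext x
    exact (hdef.inside x (mem_univ x)).symm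
  have hc : IsPreconnected (Pool.Agent.NP.Om g) := by
    rw [hO]
    exact hΩ.isConnected.isPreconnected
  have hσ : surfaceMeasure Ω = Pool.Agent.NP.surf g := by
    unfold surfaceMeasure Pool.Agent.NP.surf
    rw [hS]
  have hν' : ∀ p, g p = 0 → ν p = Pool.Agent.NP.nrm g p := by
    intro p hp
    have hp' : p ∈ frontier Ω := (hdef.boundary p (mem_univ p)).2 hp
    exact hdef.eq_of_isOuterNormal hp' (hν p hp')
  obtain ⟨K, h1, h2, h3, M, h4, h5, h6⟩ := aux hg hc _ hσ ν hν'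
  rw [hS] at h6
  refine ⟨K, M, fun K' => ⟨fun h => ?_, fun h => ?_⟩, ⟨h2, h3, h4⟩, h5, h6⟩
  · refine ContinuousLinearMap.ext fun φ => ?_
    refine Lp.ext (μ := surfaceMeasure Ω) (p := 2) (E := ℂ) ?_
    filter_upwards [h φ, h1 φ] with x e1 e2
    exact e1.2.trans e2.2.symm
  · rw [h]
    exact h1

end Pool.Agent.Results.MP_7c725c_an.SpectralMaximum
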